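import Pool.Agent.helper78.HFN.Spec

/-!
# Project HFN (MP_3221a1_ag), row WTL
-/

set_option autoImplicit false

open Polynomial Module

namespace Pool.Agent.HFN

noncomputable section

theorem WTL_pt (z : ℂ × ℂ) (E : AA) (k : ℕ) (hk : k ≤ 2) [Decidable (ev z E = 0)] [Decidable (Db z E)] :
    wt k ≤ (if ev z E = 0 then k else 0) + wt (k - od E z) + (if Db z E then 1 else 0) := by
  unfold od
  by_cases hd : Db z E
  · have h0 : ev z E = 0 := hd.1
    rw [if_pos h0, if_pos hd, if_pos hd]
    interval_cases k <;> simp [wt]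
  · by_cases h0 : ev z E = 0
    · rw [if_pos h0, if_neg hd, if_neg hd, if_pos h0]
      interval_cases k <;> simp [wt]
    · rw [if_neg h0, if_neg hd, if_neg hd, if_neg h0]
      simp

theorem WTL_one (Z : Finset (ℂ × ℂ)) (κ : ℂ × ℂ → ℕ) (hκ : ∀ z, κ z ≤ 2) (E : AA) :
    Wt Z κ ≤ lam Z κ E + Wt Z (res κ E) + sg Z E := by
  classical
  unfold Wt lam sg res
  rw [Finset.sum_filter, Finset.card_filter, ← Finset.sum_add_distrib, ← Finset.sum_add_distrib]
  exact Finset.sum_le_sum fun z _ => WTL_pt z E (κ z) (hκ z)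

theorem WTL : WTL_stmt := by
  intro Z i j l
  induction l with
  | nil =>
    intro κ _
    simp [bnd, exs]
  | cons E l ih =>
    intro κ hκ
    have h1 := WTL_one Z κ hκ E
    have h2 := ih (res κ E) (fun z => le_trans (Nat.sub_le _ _) (hκ z))
    simp only [bnd, exs, List.foldl_cons, List.map_cons, List.sum_cons, List.length_cons]
    omega

end

end Pool.Agent.HFN
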